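import Pool.Agent.K7.H80.EC.Stm2

set_option autoImplicit false

namespace Pool.Agent.K7.H92.ECASYU2

open Pool.Agent.K7.H80.EC Filter

theorem t : StAsyU2 := by
  intro ε hε k _ hlow
  obtain ⟨η, hη⟩ : ∃ η : ℝ, η = ε / 2 := ⟨_, rfl⟩
  have hη0 : 0 < η := by rw [hη]; positivity
  obtain ⟨δ, hδ⟩ : ∃ δ : ℝ, δ = η / (4 / 3 + ε) := ⟨_, rfl⟩
  have hδ0 : 0 < δ := by rw [hδ]; positivity
  have hδ1 : (1 - δ) * (4 / 3 + ε) = 4 / 3 + η := by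
    rw [hδ, hη]
    field_simp
    ring
  have hδ2 : 0 ≤ 1 - δ := by
    by_contra h
    push Not at h
    have : (1 - δ) * (4 / 3 + ε) < 0 := mul_neg_of_neg_of_pos h (by positivity)
    rw [hδ1] at this
    linarith
  obtain ⟨r, hr⟩ : ∃ r : ℝ, r = (2 : ℝ) ^ δ := ⟨_, rfl⟩
  have hr1 : 1 < r := by rw [hr]; exact Real.one_lt_rpow (by norm_num) hδ0
  have hr0 : 0 < r - 1 := by linarith
  obtain ⟨C, hC⟩ : ∃ C : ℝ, C = 1 + 2 / (r - 1) := ⟨_, rfl⟩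
  have hC0 : 0 < C := by rw [hC]; positivity
  obtain ⟨c1, hc1⟩ : ∃ c1 : ℝ, c1 = 1 / (8 * C) := ⟨_, rfl⟩
  have hc10 : 0 < c1 := by rw [hc1]; positivity
  have hlin : ∀ K : ℕ, 2 * (K : ℝ) + 1 ≤ C * r ^ K := by
    intro K
    have h1 : 1 + (K : ℝ) * (r - 1) ≤ (1 + (r - 1)) ^ K := one_add_mul_le_pow (by linarith) K
    have e1 : 1 + (r - 1) = r := by ring
    rw [e1] at h1
    have h2 : (K : ℝ) ≤ r ^ K / (r - 1) := by
      rw [le_div_iff₀ hr0]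
      linarith
    have h3 : (1 : ℝ) ≤ r ^ K := one_le_pow₀ hr1.le
    have e2 : C * r ^ K = r ^ K + 2 * (r ^ K / (r - 1)) := by rw [hC]; ring
    rw [e2]
    linarith
  have ev : ∀ᶠ d : ℕ in atTop, Real.log 4 + 1 ≤ c1 * (d : ℝ) ^ η :=
    (((tendsto_rpow_atTop hη0).comp tendsto_natCast_atTop_atTop).const_mul_atTop hc10).eventually_ge_atTop _
  have hz : Tendsto (fun d : ℕ => Real.exp (-(d : ℝ))) atTop (nhds 0) :=
    (Real.tendsto_exp_neg_atTop_nhds_zero).comp tendsto_natCast_atTop_atTop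
  refine squeeze_zero' (Eventually.of_forall fun d => by positivity) ?_ hz
  filter_upwards [hlow, ev, eventually_ge_atTop 1] with d h1 h2 h3
  have hx : (1 : ℝ) ≤ d := by exact_mod_cast h3
  obtain ⟨x, hxd⟩ : ∃ x : ℝ, x = (d : ℝ) := ⟨_, rfl⟩
  obtain ⟨K, hK⟩ : ∃ K : ℕ, K = k d := ⟨_, rfl⟩
  rw [← hK] at h1 ⊢
  rw [← hxd] at h1 h2 hx ⊢
  have hx0 : 0 < x := by linarith
  -- `x ^ (4/3 + η) ≤ 2 ^ ((1 - δ) K)`
  have h4 : x ^ (4 / 3 + η) ≤ (2 : ℝ) ^ ((1 - δ) * (K : ℝ)) := by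
    have e1 : x ^ (4 / 3 + η) = (2 : ℝ) ^ (Real.logb 2 x * (4 / 3 + η)) := by
      rw [Real.rpow_mul (by norm_num), Real.rpow_logb (by norm_num) (by norm_num) hx0]
    rw [e1]
    apply Real.rpow_le_rpow_of_exponent_le (by norm_num)
    rw [← hδ1]
    calc Real.logb 2 x * ((1 - δ) * (4 / 3 + ε)) = (1 - δ) * ((4 / 3 + ε) * Real.logb 2 x) := by ring
      _ ≤ (1 - δ) * K := mul_le_mul_of_nonneg_left h1 hδ2
  have h5 : (2 : ℝ) ^ ((1 - δ) * (K : ℝ)) * r ^ K = (2 : ℝ) ^ K := by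
    rw [hr, ← Real.rpow_natCast ((2 : ℝ) ^ δ) K, ← Real.rpow_mul (by norm_num), ← Real.rpow_add (by norm_num),
      ← Real.rpow_natCast (2 : ℝ) K]
    congr 1
    ring
  have hrK : 0 < r ^ K := by positivity
  have h6 : x ^ (4 / 3 + η) / C ≤ (2 : ℝ) ^ K / (2 * (K : ℝ) + 1) := by
    rw [div_le_div_iff₀ hC0 (by positivity), ← h5]
    calc x ^ (4 / 3 + η) * (2 * (K : ℝ) + 1) ≤ (2 : ℝ) ^ ((1 - δ) * (K : ℝ)) * (C * r ^ K) :=
          mul_le_mul h4 (hlin K) (by positivity) (by positivity)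
      _ = (2 : ℝ) ^ ((1 - δ) * (K : ℝ)) * r ^ K * C := by ring
  have h7 : (2 : ℝ) ^ K / 2 ≤ (2 : ℝ) ^ (K - 1) := by
    rcases Nat.eq_zero_or_pos K with h | h
    · rw [h]; norm_num
    · obtain ⟨m, rfl⟩ : ∃ m, K = m + 1 := ⟨K - 1, by omega⟩
      rw [Nat.add_sub_cancel, pow_succ]
      linarith
  have h8 : (1 / 2) * x ^ (-(1 / 3) : ℝ) ≤ (1 / (2 * x)) ^ (1 / 3 : ℝ) := by
    have e1 : (1 / (2 * x)) = (1 / 2) * x⁻¹ := by field_simp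
    rw [e1, Real.mul_rpow (by norm_num) (by positivity), Real.inv_rpow hx0.le, ← Real.rpow_neg hx0.le]
    apply mul_le_mul_of_nonneg_right _ (by positivity)
    calc (1 / 2 : ℝ) = (1 / 2) ^ (1 : ℝ) := (Real.rpow_one _).symm
      _ ≤ (1 / 2) ^ (1 / 3 : ℝ) := Real.rpow_le_rpow_of_exponent_ge (by norm_num) (by norm_num) (by norm_num)
  have h9 : c1 * x ^ (1 + η) ≤
      (1 / (2 * x)) ^ (1 / 3 : ℝ) * (2 : ℝ) ^ (K - 1) / (2 * (2 * K + 1)) := by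
    have e1 : x ^ (1 + η) = x ^ (-(1 / 3) : ℝ) * x ^ (4 / 3 + η) := by
      rw [← Real.rpow_add hx0]
      congr 1
      ring
    have e2 : c1 * x ^ (1 + η) = ((1 / 2) * x ^ (-(1 / 3) : ℝ)) * ((x ^ (4 / 3 + η) / C) / 4) := by
      rw [e1, hc1]
      field_simp
      ring
    have e3 : (1 / (2 * x)) ^ (1 / 3 : ℝ) * (2 : ℝ) ^ (K - 1) / (2 * (2 * K + 1)) =
        (1 / (2 * x)) ^ (1 / 3 : ℝ) * ((2 : ℝ) ^ (K - 1) / (2 * (K : ℝ) + 1) / 2) := by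
      field_simp
    rw [e2, e3]
    apply mul_le_mul h8 _ (by positivity) (by positivity)
    have h10 : (2 : ℝ) ^ K / (2 * (K : ℝ) + 1) / 2 ≤ (2 : ℝ) ^ (K - 1) / (2 * (K : ℝ) + 1) := by
      rw [div_div, mul_comm (2 * (K : ℝ) + 1) 2, ← div_div]
      exact div_le_div_of_nonneg_right h7 (by positivity)
    linarith
  have e4 : (4 : ℝ) ^ d = Real.exp (x * Real.log 4) := by
    rw [hxd, mul_comm, Real.exp_mul, Real.exp_log (by norm_num), Real.rpow_natCast]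
  rw [e4, ← Real.exp_add, Real.exp_le_exp]
  have e5 : x ^ (1 + η) = x * x ^ η := by
    rw [Real.rpow_add hx0, Real.rpow_one]
  rw [e5] at h9
  have h11 : x * (Real.log 4 + 1) ≤ x * (c1 * x ^ η) := mul_le_mul_of_nonneg_left h2 hx0.le
  have e6 : x * (c1 * x ^ η) = c1 * (x * x ^ η) := by ring
  rw [e6] at h11
  linarith

end Pool.Agent.K7.H92.ECASYU2
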