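import Pool.Agent.K7.H80.MD.Stm

set_option autoImplicit false

namespace Pool.Agent.K7.H92.MDDA

open Pool.Agent.K7.H80.MD Finset

theorem t : StA := by
  classical
  intro n p G hp hnp hM W
  have hD : 0 < (n : ℝ) * p := by linarith
  obtain ⟨s, hs⟩ : ∃ s : ℝ, s = Real.sqrt ((n : ℝ) * p) := ⟨_, rfl⟩
  have hs0 : 0 < s := by rw [hs]; exact Real.sqrt_pos.2 hD
  obtain ⟨c, hc⟩ : ∃ c : ℝ, c = p * (W.card : ℝ) := ⟨_, rfl⟩
  set U1 : Finset (Fin n) := univ.filter fun v => 56 * s < (nbr G W v : ℝ) - c with hU1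
  set U2 : Finset (Fin n) := univ.filter fun v => 56 * s < c - (nbr G W v : ℝ) with hU2
  have h1 : (U1.card : ℝ) ≤ n / 8 := by
    have hm := (abs_le.1 (hM U1 W)).2
    have e1 : ∑ u ∈ U1, ((nbr G W u : ℝ) - c) = (∑ u ∈ U1, (nbr G W u : ℝ)) - p * U1.card * W.card := by
      rw [sum_sub_distrib, sum_const, nsmul_eq_mul, hc]
      ring
    have h2 : (U1.card : ℝ) * (56 * s) ≤ ∑ u ∈ U1, ((nbr G W u : ℝ) - c) := by
      have := card_nsmul_le_sum U1 (fun u => (nbr G W u : ℝ) - c) (56 * s) (fun u hu => by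
        rw [hU1, mem_filter] at hu
        exact hu.2.le)
      rwa [nsmul_eq_mul] at this
    rw [← hs] at hm
    have h3 : (U1.card : ℝ) * 56 * s ≤ (7 * n) * s := by linarith
    have h4 := le_of_mul_le_mul_right h3 hs0
    linarith
  have h2 : (U2.card : ℝ) ≤ n / 8 := by
    have hm := (abs_le.1 (hM U2 W)).1
    have e1 : ∑ u ∈ U2, (c - (nbr G W u : ℝ)) = p * U2.card * W.card - (∑ u ∈ U2, (nbr G W u : ℝ)) := by
      rw [sum_sub_distrib, sum_const, nsmul_eq_mul, hc]
      ring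
    have h2 : (U2.card : ℝ) * (56 * s) ≤ ∑ u ∈ U2, (c - (nbr G W u : ℝ)) := by
      have := card_nsmul_le_sum U2 (fun u => c - (nbr G W u : ℝ)) (56 * s) (fun u hu => by
        rw [hU2, mem_filter] at hu
        exact hu.2.le)
      rwa [nsmul_eq_mul] at this
    rw [← hs] at hm
    have h3 : (U2.card : ℝ) * 56 * s ≤ (7 * n) * s := by linarith
    have h4 := le_of_mul_le_mul_right h3 hs0
    linarith
  have hsub : (univ.filter fun v : Fin n =>
      56 * Real.sqrt (n * p) < |(nbr G W v : ℝ) - p * W.card|) ⊆ U1 ∪ U2 := by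
    intro v hv
    rw [mem_filter] at hv
    rw [mem_union, hU1, hU2, mem_filter, mem_filter]
    have h5 := hv.2
    rw [← hs, ← hc, lt_abs] at h5
    rcases h5 with h5 | h5
    · left
      exact ⟨mem_univ _, h5⟩
    · right
      refine ⟨mem_univ _, ?_⟩
      linarith
  have h6 : (((univ.filter fun v : Fin n =>
      56 * Real.sqrt (n * p) < |(nbr G W v : ℝ) - p * W.card|).card : ℕ) : ℝ) ≤ (U1.card : ℝ) + U2.card := by
    exact_mod_cast (card_le_card hsub).trans (card_union_le _ _)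
  have h7 : (n : ℝ) / 8 + n / 8 = n / 4 := by ring
  convert h6.trans (by linarith : (U1.card : ℝ) + U2.card ≤ n / 4) using 1

end Pool.Agent.K7.H92.MDDA
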