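import Pool.Agent.K7.H16.SG.Stm

set_option autoImplicit false

open Finset

namespace Pool.Agent.K7.H92.SGREC2

open Pool.Agent.K7.H16.SG

lemma key (h1 : StF1) (h0 : StF0) (hW : StW) (A : Finset ℕ) (M' M : ℕ) (hA : ∀ a ∈ A, a < M')
    (hM : M' < M) (τ : List ℕ) (hn : τ.Nodup) (hτ : τ.toFinset = insert M' A) :
    f (τ ++ [M]) ^ 2 ≤
      ∑ i ∈ range (A.card + 1), (if M' ∈ τ.take i then f (τ.take i) ^ 2 else 0) * f (τ.drop i) ^ 2 +
      (A.card + 2) * (∑ i ∈ range (A.card + 1),
        f (τ.take i) ^ 2 * (if M' ∈ τ.drop i then f (τ.drop i) ^ 2 else 0) + f τ ^ 2) := by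
  have hM'A : M' ∉ A := fun h => lt_irrefl _ (hA _ h)
  have hlen : τ.length = A.card + 1 := by
    rw [← List.toFinset_card_of_nodup hn, hτ, card_insert_of_notMem hM'A]
  have hle : ∀ a ∈ τ, a ≤ M' := by
    intro a ha
    have h : a ∈ τ.toFinset := List.mem_toFinset.2 ha
    rw [hτ, mem_insert] at h
    rcases h with h | h
    · exact h.le
    · exact (hA a h).le
  have hltM : ∀ a ∈ τ, a < M := fun a ha => (hle a ha).trans_lt hM
  have hM'τ : M' ∈ τ := by rw [← List.mem_toFinset, hτ]; exact mem_insert_self _ _
  have hf := h1 τ M hn hltM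
  rw [hlen] at hf
  by_cases hlast : ∃ τ', τ = τ' ++ [M']
  · obtain ⟨τ', hτ'⟩ := hlast
    have hl' : τ'.length = A.card := by
      have := congrArg List.length hτ'
      rw [hlen, List.length_append, List.length_singleton] at this
      omega
    have hc := sq_sum_le_card_mul_sum_sq (s := range (A.card + 1 + 1))
      (f := fun i => f (τ.take i) * f (τ.drop i))
    have e1 : ∑ i ∈ range (A.card + 1 + 1), (f (τ.take i) * f (τ.drop i)) ^ 2 =
        ∑ i ∈ range (A.card + 1),
          f (τ.take i) ^ 2 * (if M' ∈ τ.drop i then f (τ.drop i) ^ 2 else 0) + f τ ^ 2 := by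
      rw [sum_range_succ]
      congr 1
      · apply sum_congr rfl
        intro i hi
        rw [mem_range] at hi
        have hm : M' ∈ τ.drop i := by
          rw [hτ', List.drop_append_of_le_length (by omega)]
          simp
        rw [if_pos hm, mul_pow]
      · rw [← hlen, List.take_length, List.drop_length, hW.2.2.1, mul_one]
    rw [← hf, e1, card_range] at hc
    refine hc.trans ?_
    push_cast
    exact le_add_left le_rfl
  · have hx : ∀ i, i ≤ A.card + 1 → f (τ.take i) * f (τ.drop i) ≠ 0 →
        ∃ σ, τ.take i = σ ++ [M'] ∧ i < A.card + 1 := by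
      intro i hi hne
      have hne1 : f (τ.take i) ≠ 0 := left_ne_zero_of_mul hne
      have hne2 : f (τ.drop i) ≠ 0 := right_ne_zero_of_mul hne
      have hnd : M' ∉ τ.drop i := by
        intro hm
        obtain ⟨σ, m, h3, h4⟩ := h0 (τ.drop i) (hn.sublist (List.drop_sublist i τ)) hne2
          (List.ne_nil_of_mem hm)
        have hmem : m ∈ τ := List.mem_of_mem_drop (by rw [h3]; simp : m ∈ τ.drop i)
        have hmM : m = M' := by
          rw [h3, List.mem_append, List.mem_singleton] at hm
          rcases hm with hm | hm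
          · exact absurd (h4 _ hm) (not_lt.2 (hle m hmem))
          · exact hm.symm
        apply hlast
        refine ⟨τ.take i ++ σ, ?_⟩
        rw [List.append_assoc, ← hmM, ← h3, List.take_append_drop]
      have hmt : M' ∈ τ.take i := by
        have h5 : M' ∈ τ.take i ++ τ.drop i := by rw [List.take_append_drop]; exact hM'τ
        rcases List.mem_append.1 h5 with h5 | h5
        · exact h5
        · exact absurd h5 hnd
      obtain ⟨σ, m, h3, h4⟩ := h0 (τ.take i) (hn.sublist (List.take_sublist i τ)) hne1
        (List.ne_nil_of_mem hmt)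
      have hmem : m ∈ τ := List.mem_of_mem_take (by rw [h3]; simp : m ∈ τ.take i)
      have hmM : m = M' := by
        rw [h3, List.mem_append, List.mem_singleton] at hmt
        rcases hmt with hm | hm
        · exact absurd (h4 _ hm) (not_lt.2 (hle m hmem))
        · exact hm.symm
      refine ⟨σ, by rw [h3, hmM], ?_⟩
      by_contra hge
      have hi' : i = τ.length := by omega
      rw [hi', List.take_length] at h3
      exact hlast ⟨σ, by rw [h3, hmM]⟩
    have hu : ∀ i σ, i ≤ τ.length → τ.take i = σ ++ [M'] → i = τ.idxOf M' + 1 := by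
      intro i σ hi h3
      have hl : σ.length + 1 = i := by
        have := congrArg List.length h3
        rw [List.length_take, List.length_append, List.length_singleton] at this
        omega
      have hns : M' ∉ σ := by
        have h4 : (σ ++ [M']).Nodup := h3 ▸ hn.sublist (List.take_sublist i τ)
        intro h5
        exact (List.nodup_append.1 h4).2.2 M' h5 M' (by simp) rfl
      have h6 : τ.idxOf M' = σ.length := by
        conv_lhs => rw [← List.take_append_drop i τ, h3, List.append_assoc]
        rw [List.idxOf_append_of_notMem hns]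
        simp
      omega
    have hbound : f (τ ++ [M]) ^ 2 ≤ ∑ i ∈ range (A.card + 1),
        (if M' ∈ τ.take i then f (τ.take i) ^ 2 else 0) * f (τ.drop i) ^ 2 := by
      rw [hf]
      by_cases hall : ∀ i ∈ range (A.card + 1 + 1), f (τ.take i) * f (τ.drop i) = 0
      · rw [sum_eq_zero hall]
        simp
      · push Not at hall
        obtain ⟨i, hi, hne⟩ := hall
        rw [mem_range] at hi
        obtain ⟨σ, h3, h4⟩ := hx i (by omega) hne
        have hs : ∑ j ∈ range (A.card + 1 + 1), f (τ.take j) * f (τ.drop j) =
            f (τ.take i) * f (τ.drop i) := by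
          apply sum_eq_single i
          · intro j hj hji
            by_contra hne'
            rw [mem_range] at hj
            obtain ⟨σ', h3', h4'⟩ := hx j (by omega) hne'
            apply hji
            rw [hu j σ' (by omega) h3', hu i σ (by omega) h3]
          · intro hni
            exact absurd (mem_range.2 hi) hni
        rw [hs, mul_pow]
        have hmem : M' ∈ τ.take i := by rw [h3]; simp
        have h7 := single_le_sum (f := fun i => (if M' ∈ τ.take i then f (τ.take i) ^ 2 else 0) *
          f (τ.drop i) ^ 2) (fun j _ => Nat.zero_le _) (mem_range.2 h4)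
        simp only [if_pos hmem] at h7
        exact h7
    exact hbound.trans (Nat.le_add_right _ _)

theorem t (h1 : StF1) (h0 : StF0) (hW : StW) (hS : StSpl) : StRec2 := by
  intro A M' M hA hM
  have hM'A : M' ∉ A := fun h => lt_irrefl _ (hA _ h)
  have hMA : M ∉ insert M' A := by
    rw [mem_insert]
    rintro (h | h)
    · omega
    · exact absurd (hA _ h) (by omega)
  have hcard : (insert M' A).card = A.card + 1 := card_insert_of_notMem hM'A
  have hle : ∀ a ∈ insert M (insert M' A), a ≤ M := by
    intro a ha
    rw [mem_insert, mem_insert] at ha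
    rcases ha with h | h | h
    · exact h.le
    · omega
    · exact ((hA a h).trans hM).le
  -- only the words `τ M` count
  have hD : D (insert M (insert M' A)) ≤ ∑ τ ∈ words (insert M' A), f (τ ++ [M]) ^ 2 := by
    unfold D
    have e1 : ∑ τ ∈ words (insert M' A), f (τ ++ [M]) ^ 2 =
        ∑ w ∈ (words (insert M' A)).image (fun τ => τ ++ [M]), f w ^ 2 := by
      rw [sum_image]
      intro x _ y _ hxy
      exact List.append_cancel_right hxy
    rw [e1]
    apply sum_le_sum_of_ne_zero
    intro w hw hne
    have hw' := (hW.1 _ _).1 hw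
    have hMw : M ∈ w := by rw [← List.mem_toFinset, hw'.2]; exact mem_insert_self _ _
    obtain ⟨τ, m, h3, h4⟩ := h0 w hw'.1 (fun h => hne (by rw [h]; rfl)) (List.ne_nil_of_mem hMw)
    have hm : m ∈ w := by rw [h3]; simp
    have hmM : m = M := by
      have h5 : m ≤ M := hle m (by rw [← hw'.2]; exact List.mem_toFinset.2 hm)
      have h6 := hMw
      rw [h3, List.mem_append, List.mem_singleton] at h6
      rcases h6 with h6 | h6
      · exact absurd (h4 _ h6) (not_lt.2 h5)
      · exact h6.symm
    rw [hmM] at h3 h4
    rw [mem_image]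
    refine ⟨τ, (hW.1 _ _).2 ⟨?_, ?_⟩, h3.symm⟩
    · have := hw'.1
      rw [h3] at this
      exact (List.nodup_append.1 this).1
    · have h7 := hw'.2
      rw [h3, List.toFinset_append] at h7
      have hMτ : M ∉ τ.toFinset := fun h => lt_irrefl _ (h4 _ (List.mem_toFinset.1 h))
      ext a
      constructor
      · intro ha
        have h8 : a ∈ insert M (insert M' A) := by rw [← h7]; exact mem_union_left _ ha
        rw [mem_insert] at h8
        rcases h8 with h8 | h8
        · exact absurd (h8 ▸ ha) hMτ
        · exact h8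
      · intro ha
        have h8 : a ∈ τ.toFinset ∪ [M].toFinset := by rw [h7]; exact mem_insert_of_mem ha
        rw [mem_union] at h8
        rcases h8 with h8 | h8
        · exact h8
        · exfalso
          have : a = M := by simpa using h8
          exact hMA (this ▸ ha)
  refine hD.trans ?_
  have hk : ∑ τ ∈ words (insert M' A), f (τ ++ [M]) ^ 2 ≤
      ∑ τ ∈ words (insert M' A), (∑ i ∈ range (A.card + 1),
        (if M' ∈ τ.take i then f (τ.take i) ^ 2 else 0) * f (τ.drop i) ^ 2 +
      (A.card + 2) * (∑ i ∈ range (A.card + 1),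
        f (τ.take i) ^ 2 * (if M' ∈ τ.drop i then f (τ.drop i) ^ 2 else 0) + f τ ^ 2)) := by
    apply sum_le_sum
    intro τ hτ
    have h := (hW.1 _ _).1 hτ
    exact key h1 h0 hW A M' M hA hM τ h.1 h.2
  refine hk.trans ?_
  rw [sum_add_distrib, ← mul_sum, sum_add_distrib, sum_comm, sum_comm (s := words (insert M' A))]
  have hG : ∀ B : Finset ℕ, ∑ u ∈ words B, (if M' ∈ u then f u ^ 2 else 0) = if M' ∈ B then D B else 0 := by
    intro B
    unfold D
    by_cases hB : M' ∈ B
    · rw [if_pos hB]
      apply sum_congr rfl
      intro u hu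
      have : M' ∈ u := by rw [← List.mem_toFinset, ((hW.1 _ _).1 hu).2]; exact hB
      rw [if_pos this]
    · rw [if_neg hB]
      apply sum_eq_zero
      intro u hu
      have : M' ∉ u := by rw [← List.mem_toFinset, ((hW.1 _ _).1 hu).2]; exact hB
      rw [if_neg this]
  have e1 : ∑ i ∈ range (A.card + 1), ∑ τ ∈ words (insert M' A),
      (if M' ∈ τ.take i then f (τ.take i) ^ 2 else 0) * f (τ.drop i) ^ 2 =
      ∑ i ∈ range (A.card + 1), ∑ B ∈ powersetCard i (insert M' A),
        (if M' ∈ B then D B else 0) * D (insert M' A \ B) := by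
    apply sum_congr rfl
    intro i hi
    rw [mem_range] at hi
    rw [hS (insert M' A) i (fun u => if M' ∈ u then f u ^ 2 else 0) (fun v => f v ^ 2) (by rw [hcard]; omega)]
    apply sum_congr rfl
    intro B _
    rw [hG]
    rfl
  have e2 : ∑ i ∈ range (A.card + 1), ∑ τ ∈ words (insert M' A),
      f (τ.take i) ^ 2 * (if M' ∈ τ.drop i then f (τ.drop i) ^ 2 else 0) =
      ∑ i ∈ range (A.card + 1), ∑ B ∈ powersetCard i (insert M' A),
        D B * (if M' ∈ insert M' A \ B then D (insert M' A \ B) else 0) := by
    apply sum_congr rfl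
    intro i hi
    rw [mem_range] at hi
    rw [hS (insert M' A) i (fun u => f u ^ 2) (fun v => if M' ∈ v then f v ^ 2 else 0) (by rw [hcard]; omega)]
    apply sum_congr rfl
    intro B _
    rw [hG]
    rfl
  have hp : ∀ φ : Finset ℕ → ℕ, ∑ i ∈ range (A.card + 1), ∑ B ∈ powersetCard i (insert M' A), φ B +
      φ (insert M' A) = ∑ B ∈ A.powerset, φ B + ∑ B ∈ A.powerset, φ (insert M' B) := by
    intro φ
    rw [← sum_powerset_insert hM'A, sum_powerset, hcard, sum_range_succ _ (A.card + 1)]
    congr 1
    rw [← hcard, powersetCard_self, sum_singleton]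
  -- first part
  have f1 : ∑ i ∈ range (A.card + 1), ∑ B ∈ powersetCard i (insert M' A),
        (if M' ∈ B then D B else 0) * D (insert M' A \ B) =
      ∑ B ∈ A.powerset.erase A, D (insert M' B) * D (A \ B) := by
    have h := hp fun B => (if M' ∈ B then D B else 0) * D (insert M' A \ B)
    have z : ∑ B ∈ A.powerset, (if M' ∈ B then D B else 0) * D (insert M' A \ B) = 0 := by
      apply sum_eq_zero
      intro B hB
      have : M' ∉ B := fun h => hM'A ((mem_powerset.1 hB) h)
      rw [if_neg this, zero_mul]
    have z2 : ∀ B ∈ A.powerset, (if M' ∈ insert M' B then D (insert M' B) else 0) *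
        D (insert M' A \ insert M' B) = D (insert M' B) * D (A \ B) := by
      intro B _
      rw [if_pos (mem_insert_self _ _)]
      congr 2
      ext a
      simp only [mem_sdiff, mem_insert, not_or]
      constructor
      · rintro ⟨h1 | h1, h2, h3⟩
        · exact absurd h1 h2
        · exact ⟨h1, h3⟩
      · rintro ⟨h1, h3⟩
        exact ⟨Or.inr h1, fun h => hM'A (h ▸ h1), h3⟩

    rw [z, zero_add, sum_congr rfl z2, ← add_sum_erase _ _ (mem_powerset_self A),
      ← z2 A (mem_powerset_self A), add_comm] at h
    exact Nat.add_left_cancel h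
  have f2 : ∑ i ∈ range (A.card + 1), ∑ B ∈ powersetCard i (insert M' A),
        D B * (if M' ∈ insert M' A \ B then D (insert M' A \ B) else 0) ≤
      ∑ B ∈ A.powerset, D B * D (insert M' (A \ B)) := by
    have h := hp fun B => D B * (if M' ∈ insert M' A \ B then D (insert M' A \ B) else 0)
    have z : ∑ B ∈ A.powerset, D (insert M' B) *
        (if M' ∈ insert M' A \ insert M' B then D (insert M' A \ insert M' B) else 0) = 0 := by
      apply sum_eq_zero
      intro B _
      rw [if_neg (by simp), mul_zero]
    have z2 : ∀ B ∈ A.powerset, D B * (if M' ∈ insert M' A \ B then D (insert M' A \ B) else 0) =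
        D B * D (insert M' (A \ B)) := by
      intro B hB
      have hB' : M' ∉ B := fun h => hM'A ((mem_powerset.1 hB) h)
      rw [if_pos (mem_sdiff.2 ⟨mem_insert_self _ _, hB'⟩)]
      congr 2
      rw [insert_sdiff_of_notMem _ hB']

    rw [z, add_zero, sum_congr rfl z2] at h
    rw [← h]
    exact Nat.le_add_right _ _
  rw [e1, e2, f1]
  have f3 : ∑ τ ∈ words (insert M' A), f τ ^ 2 = D (insert M' A) := rfl
  rw [f3]
  gcongr

end Pool.Agent.K7.H92.SGREC2
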